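import Mathlib

/-!
# Representations of a finite group over a finite prime field: finiteness by invariants
-/

set_option autoImplicit false

namespace Pool.Agent.TH743.MU

open Module

variable {G : Type} [Group G] {p : ℕ} {V : Type} [AddCommGroup V] [Module (ZMod p) V]

/-- The vectors fixed by the group `H`. -/
def Fix (ρ : Representation (ZMod p) G V) (H : Subgroup G) : Set V :=
  {v | ∀ g ∈ H, ρ g v = v}

/-- A subspace mapped to itself by the whole group. -/
def Stable (ρ : Representation (ZMod p) G V) (S : Submodule (ZMod p) V) : Prop :=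
  ∀ g : G, ∀ v ∈ S, ρ g v ∈ S

/-- The stabiliser of a vector. -/
def stab (ρ : Representation (ZMod p) G V) (v : V) : Subgroup G where
  carrier := {g | ρ g v = v}
  one_mem' := by simp
  mul_mem' := by
    intro a b ha hb
    have ha' : ρ a v = v := ha
    have hb' : ρ b v = v := hb
    show ρ (a * b) v = v
    rw [map_mul, Module.End.mul_apply, hb', ha']
  inv_mem' := by
    intro a ha
    have ha' : ρ a v = v := ha
    show ρ a⁻¹ v = v
    have h : ρ a⁻¹ (ρ a v) = v := by
      rw [← Module.End.mul_apply, ← map_mul, inv_mul_cancel, map_one, Module.End.one_apply]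
    rwa [ha'] at h

theorem mem_stab {ρ : Representation (ZMod p) G V} {v : V} {g : G} :
    g ∈ stab ρ v ↔ ρ g v = v := Iff.rfl

theorem act_mul (ρ : Representation (ZMod p) G V) (a b : G) (v : V) :
    ρ (a * b) v = ρ a (ρ b v) := by
  rw [map_mul, Module.End.mul_apply]

theorem finite_span [Fact p.Prime] {A : Set V} (hA : A.Finite) :
    ((Submodule.span (ZMod p) A : Submodule (ZMod p) V) : Set V).Finite := by
  have : Module.Finite (ZMod p) (Submodule.span (ZMod p) A) := Module.Finite.span_of_finite _ hA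
  have : Finite (Submodule.span (ZMod p) A) := Module.finite_of_finite (ZMod p)
  exact Set.toFinite _

/-- The span of an orbit. -/
def orb (ρ : Representation (ZMod p) G V) (A : Set V) : Submodule (ZMod p) V :=
  Submodule.span (ZMod p) (⋃ g : G, (fun v => ρ g v) '' A)

theorem orb_stable (ρ : Representation (ZMod p) G V) (A : Set V) : Stable ρ (orb ρ A) := by
  intro g v hv
  have : orb ρ A ≤ (orb ρ A).comap (ρ g) := by
    unfold orb
    rw [Submodule.span_le]
    rintro x hx
    obtain ⟨h, hx⟩ := Set.mem_iUnion.1 hx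
    obtain ⟨a, ha, rfl⟩ := hx
    change ρ g (ρ h a) ∈ Submodule.span (ZMod p) (⋃ g : G, (fun v => ρ g v) '' A)
    rw [← act_mul]
    exact Submodule.subset_span (Set.mem_iUnion.2 ⟨g * h, a, ha, rfl⟩)
  exact this hv

theorem subset_orb (ρ : Representation (ZMod p) G V) (A : Set V) : A ⊆ orb ρ A := by
  intro a ha
  refine Submodule.subset_span (Set.mem_iUnion.2 ⟨1, a, ha, ?_⟩)
  simp

theorem orb_finite [Finite G] [Fact p.Prime] (ρ : Representation (ZMod p) G V) {A : Set V}
    (hA : A.Finite) : ((orb ρ A : Submodule (ZMod p) V) : Set V).Finite :=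
  finite_span (Set.finite_iUnion fun _ => hA.image _)

/-- A nonzero finite stable subspace contains a minimal one. -/
theorem exists_min [Fact p.Prime] (ρ : Representation (ZMod p) G V) (S₀ : Submodule (ZMod p) V)
    (h0 : S₀ ≠ ⊥) (hfin : (S₀ : Set V).Finite) (hst : Stable ρ S₀) :
    ∃ S ≤ S₀, S ≠ ⊥ ∧ Stable ρ S ∧ ∀ T ≤ S, Stable ρ T → T = ⊥ ∨ T = S := by
  classical
  let Q : ℕ → Prop := fun n => ∃ S ≤ S₀, S ≠ ⊥ ∧ Stable ρ S ∧ (S : Set V).ncard = n
  have hQ : ∃ n, Q n := ⟨_, S₀, le_rfl, h0, hst, rfl⟩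
  obtain ⟨S, hS, hS0, hSst, hcard⟩ := Nat.find_spec hQ
  refine ⟨S, hS, hS0, hSst, fun T hT hTst => ?_⟩
  by_cases hT0 : T = ⊥
  · exact Or.inl hT0
  right
  have hmin : Nat.find hQ ≤ (T : Set V).ncard :=
    Nat.find_min' hQ ⟨T, hT.trans hS, hT0, hTst, rfl⟩
  have hSfin : (S : Set V).Finite := hfin.subset hS
  have := Set.eq_of_subset_of_ncard_le (s := (T : Set V)) (t := (S : Set V)) hT
    (by rw [hcard]; exact hmin) hSfin
  exact SetLike.coe_injective this

/-- **Main lemma.** If every irreducible subrepresentation has a nonzero vector fixed by a group in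
`𝓗`, and the spaces of vectors fixed by the groups in `𝓗` are finite, then the representation is
finite. -/
theorem core [Finite G] [Fact p.Prime] (ρ : Representation (ZMod p) G V) (𝓗 : Set (Subgroup G))
    (hfin : ∀ H ∈ 𝓗, (Fix ρ H).Finite)
    (hsel : ∀ S : Submodule (ZMod p) V, S ≠ ⊥ → (S : Set V).Finite → Stable ρ S →
      (∀ T ≤ S, Stable ρ T → T = ⊥ ∨ T = S) → ∃ H ∈ 𝓗, ∃ v ∈ S, v ≠ 0 ∧ v ∈ Fix ρ H) :
    Finite V := by
  classical
  have hA : (⋃ H ∈ 𝓗, Fix ρ H).Finite := Set.Finite.biUnion (Set.toFinite 𝓗) hfin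
  set A : Set V := ⋃ H ∈ 𝓗, Fix ρ H with hAdef
  set B : Submodule (ZMod p) V := orb ρ A with hBdef
  have hBfin : (B : Set V).Finite := orb_finite ρ hA
  have : Finite B := hBfin
  obtain ⟨π, hπ⟩ := LinearMap.exists_leftInverse_of_injective B.subtype
    (LinearMap.ker_eq_bot.2 B.injective_subtype)
  have hπB : ∀ b : B, π b = b := fun b => by
    have := LinearMap.congr_fun hπ b
    simpa using this
  let Φ : V →ₗ[ZMod p] (G → B) := LinearMap.pi fun g => π ∘ₗ (ρ g)
  have hker : ∀ w : V, Φ w = 0 → w = 0 := by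
    intro w hw
    by_contra hne
    have hw' : ∀ g, π (ρ g w) = 0 := fun g => congr_fun hw g
    -- the orbit span of `w` lies in the kernel
    have hK0 : ∀ x ∈ orb ρ {w}, ∀ g, π (ρ g x) = 0 := by
      intro x hx g
      have hle : orb ρ {w} ≤ LinearMap.ker (π ∘ₗ (ρ g)) := by
        unfold orb
        rw [Submodule.span_le]
        rintro y hy
        obtain ⟨h, hy⟩ := Set.mem_iUnion.1 hy
        obtain ⟨a, ha, rfl⟩ := hy
        rw [Set.mem_singleton_iff] at ha
        subst ha
        show (π ∘ₗ (ρ g)) (ρ h a) = 0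
        rw [LinearMap.comp_apply, ← act_mul]
        exact hw' _
      exact hle hx
    have hne' : orb ρ {w} ≠ ⊥ := by
      intro hbot
      have : w ∈ orb ρ {w} := subset_orb ρ {w} rfl
      rw [hbot] at this
      exact hne ((Submodule.mem_bot _).1 this)
    obtain ⟨S, hS, hS0, hSst, hmin⟩ := exists_min ρ (orb ρ {w}) hne'
      (orb_finite ρ (Set.finite_singleton w)) (orb_stable ρ {w})
    obtain ⟨H, hH, v, hvS, hv0, hvH⟩ := hsel S hS0
      ((orb_finite ρ (Set.finite_singleton w)).subset hS) hSst hmin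
    have hvA : v ∈ A := Set.mem_iUnion₂.2 ⟨H, hH, hvH⟩
    have hvB : v ∈ B := subset_orb ρ A hvA
    have h1 := hK0 v (hS hvS) 1
    rw [map_one, Module.End.one_apply] at h1
    have h2 := hπB ⟨v, hvB⟩
    rw [show ((⟨v, hvB⟩ : B) : V) = v from rfl, h1] at h2
    exact hv0 (congrArg Subtype.val h2).symm
  have hinj : Function.Injective Φ := by
    rw [← LinearMap.ker_eq_bot, LinearMap.ker_eq_bot']
    exact hker
  exact Finite.of_injective Φ hinj

/-- Among the nonzero vectors fixed by `Q` choose one with a maximal stabiliser. -/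
theorem exists_max [Finite G] (ρ : Representation (ZMod p) G V) (Q : Subgroup G)
    (h : ∃ v, v ≠ 0 ∧ v ∈ Fix ρ Q) :
    ∃ v, v ≠ 0 ∧ Q ≤ stab ρ v ∧ ∀ u, u ≠ 0 → (∀ g ∈ stab ρ v, ρ g u = u) →
      stab ρ u = stab ρ v := by
  classical
  let X : Set (Subgroup G) := {H | ∃ v, v ≠ 0 ∧ Q ≤ stab ρ v ∧ stab ρ v = H}
  have hX : X.Nonempty := by
    obtain ⟨v, hv, hQ⟩ := h
    exact ⟨_, v, hv, fun g hg => hQ g hg, rfl⟩
  obtain ⟨H, hH⟩ := (Set.toFinite X).exists_maximal hX
  obtain ⟨v, hv, hQ, hvH⟩ := hH.prop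
  refine ⟨v, hv, hQ, fun u hu hfix => ?_⟩
  have hle : stab ρ v ≤ stab ρ u := fun g hg => hfix g hg
  have hmem : stab ρ u ∈ X := ⟨u, hu, hQ.trans hle, rfl⟩
  rw [← hvH] at hH
  exact le_antisymm (hH.le_of_ge hmem hle) hle

/-- A `p`-group acting on a nonzero finite space over `ZMod p` fixes a nonzero vector. -/
theorem exists_fixed [Fact p.Prime] [Finite V] [Nontrivial V]
    (ρ : Representation (ZMod p) G V) (Q : Subgroup G) (hQ : IsPGroup p Q) :
    ∃ v, v ≠ 0 ∧ v ∈ Fix ρ Q := by
  classical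
  let _ : MulAction Q V :=
    { smul := fun g v => ρ (g : G) v
      one_smul := fun v => by
        show ρ ((1 : Q) : G) v = v
        simp
      mul_smul := fun a b v => by
        show ρ ((a * b : Q) : G) v = ρ (a : G) (ρ (b : G) v)
        rw [Subgroup.coe_mul, act_mul] }
  have hsmul : ∀ (g : Q) (v : V), g • v = ρ (g : G) v := fun _ _ => rfl
  have h0 : (0 : V) ∈ MulAction.fixedPoints Q V := by
    intro g
    rw [hsmul, map_zero]
  have hp : p ∣ Nat.card V := by
    have : Module.Finite (ZMod p) V := Module.Finite.of_finite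
    rw [Module.natCard_eq_pow_finrank (K := ZMod p) (V := V), Nat.card_zmod]
    refine dvd_pow_self p ?_
    have : 0 < Module.finrank (ZMod p) V := Module.finrank_pos
    omega
  obtain ⟨b, hb, hne⟩ := hQ.exists_fixed_point_of_prime_dvd_card_of_fixed_point V hp h0
  refine ⟨b, fun h => hne h.symm, fun g hg => ?_⟩
  exact hb ⟨g, hg⟩

end Pool.Agent.TH743.MU
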