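import Pool.Agent.TH743.MU.Core

/-!
# Fields cut out by vectors in irreducible representations over a prime field
-/

set_option autoImplicit false

namespace Pool.Agent.TH743.MU

open Module

section Rep

variable {G : Type} [Group G] {p : ℕ} {V : Type} [AddCommGroup V] [Module (ZMod p) V]

/-- The representation is irreducible: it is not zero and has no stable subspaces besides `0` and
itself. -/
def Irred (ρ : Representation (ZMod p) G V) : Prop :=
  Nontrivial V ∧ ∀ S : Submodule (ZMod p) V, Stable ρ S → S = ⊥ ∨ S = ⊤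

/-- The representation on a stable subspace. -/
def subRep (ρ : Representation (ZMod p) G V) (S : Submodule (ZMod p) V) (hS : Stable ρ S) :
    Representation (ZMod p) G S where
  toFun g := (ρ g).restrict (hS g)
  map_one' := by
    ext v
    simp [LinearMap.restrict_apply]
  map_mul' a b := by
    ext v
    simp [LinearMap.restrict_apply]

theorem subRep_coe (ρ : Representation (ZMod p) G V) (S : Submodule (ZMod p) V) (hS : Stable ρ S)
    (g : G) (v : S) : ((subRep ρ S hS g v : S) : V) = ρ g v := rfl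

theorem stab_subRep (ρ : Representation (ZMod p) G V) (S : Submodule (ZMod p) V)
    (hS : Stable ρ S) (v : S) : stab (subRep ρ S hS) v = stab ρ (v : V) := by
  ext g
  rw [mem_stab, mem_stab, ← subRep_coe ρ S hS g v]
  exact Subtype.ext_iff

theorem irred_subRep (ρ : Representation (ZMod p) G V) (S : Submodule (ZMod p) V)
    (hS : Stable ρ S) (h0 : S ≠ ⊥)
    (hmin : ∀ T ≤ S, Stable ρ T → T = ⊥ ∨ T = S) : Irred (subRep ρ S hS) := by
  refine ⟨Submodule.nontrivial_iff_ne_bot.2 h0, fun T hT => ?_⟩
  have hle : T.map S.subtype ≤ S := Submodule.map_subtype_le S T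
  have hst : Stable ρ (T.map S.subtype) := by
    rintro g v ⟨t, ht, rfl⟩
    exact ⟨subRep ρ S hS g t, hT g t ht, rfl⟩
  rcases hmin _ hle hst with h | h
  · left
    rw [Submodule.eq_bot_iff]
    intro t ht
    have hm : (t : V) ∈ T.map S.subtype := ⟨t, ht, rfl⟩
    rw [h, Submodule.mem_bot] at hm
    exact Subtype.ext hm
  · right
    apply Submodule.map_injective_of_injective S.injective_subtype
    rw [h, Submodule.map_subtype_top]

/-- The representation on infinitely many copies. -/
def copies (ρ : Representation (ZMod p) G V) : Representation (ZMod p) G (ℕ → V) where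
  toFun g := LinearMap.pi fun n => (ρ g) ∘ₗ LinearMap.proj n
  map_one' := by
    ext v n
    simp
  map_mul' a b := by
    ext v n
    simp

end Rep

variable (p : ℕ) (k L : Type) [Field k] [Field L] [Algebra k L]

/-- **Genus theory.** There is an `𝔽_p`-space `V` with an action of `Gal(L/k)` such that for each
intermediate field `K` the property `P K` holds if and only if the space of the vectors fixed by
`Gal(L/K)` is finite. -/
def GenusTheory (P : IntermediateField k L → Prop) : Prop :=
  ∃ (V : Type) (_ : AddCommGroup V) (_ : Module (ZMod p) V)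
    (ρ : Representation (ZMod p) (L ≃ₐ[k] L) V),
    ∀ K : IntermediateField k L, P K ↔ (Fix ρ K.fixingSubgroup).Finite

/-- `K` is cut out by the nonzero vectors which it fixes in some irreducible representation of
`Gal(L/k)` over `𝔽_p`: there are such vectors, and each of them has the stabiliser `Gal(L/K)`. -/
def CutOut (K : IntermediateField k L) : Prop :=
  ∃ (V : Type) (_ : AddCommGroup V) (_ : Module (ZMod p) V) (_ : Finite V)
    (ρ : Representation (ZMod p) (L ≃ₐ[k] L) V), Irred ρ ∧
    (∃ v : V, v ≠ 0 ∧ v ∈ Fix ρ K.fixingSubgroup) ∧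
    ∀ v : V, v ≠ 0 → v ∈ Fix ρ K.fixingSubgroup → stab ρ v = K.fixingSubgroup

/-- The fields in `𝒮` suffice: a property described by genus theory which holds for all fields in
`𝒮` holds for all intermediate fields. -/
def Sufficient (𝒮 : Set (IntermediateField k L)) : Prop :=
  ∀ P : IntermediateField k L → Prop, GenusTheory p k L P → (∀ K ∈ 𝒮, P K) → ∀ K, P K

/-- Each irreducible representation has a nonzero vector fixed by `Gal(L/K)` for some `K ∈ 𝒮`. -/
def SeesAll (𝒮 : Set (IntermediateField k L)) : Prop :=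
  ∀ (V : Type) (_ : AddCommGroup V) (_ : Module (ZMod p) V) (_ : Finite V)
    (ρ : Representation (ZMod p) (L ≃ₐ[k] L) V), Irred ρ →
    ∃ K ∈ 𝒮, ∃ v : V, v ≠ 0 ∧ v ∈ Fix ρ K.fixingSubgroup

variable {k L}

/-- Some element of `C` fixes `K`. If `C` is the set of all complex conjugations: `K` has a real
place. -/
def HasReal (C : Set (L ≃ₐ[k] L)) (K : IntermediateField k L) : Prop :=
  ∃ c ∈ C, ∀ x ∈ K, c x = x

/-- The elements of `C` agree on `K`, do not fix it, and commute with all conjugations on `K`. If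
`k` is totally real and `C` is the set of all complex conjugations: `K` is a CM field. -/
def IsCM (C : Set (L ≃ₐ[k] L)) (K : IntermediateField k L) : Prop :=
  ∀ c ∈ C, (∃ x ∈ K, c x ≠ x) ∧ (∀ c' ∈ C, ∀ x ∈ K, c' x = c x) ∧
    ∀ σ : L ≃ₐ[k] L, ∀ x ∈ K, σ (c x) = c (σ x)

variable {p}

section Main

variable [FiniteDimensional k L] [Fact p.Prime]

theorem sufficient_of {𝒮 : Set (IntermediateField k L)} (h : SeesAll p k L 𝒮) :
    Sufficient p k L 𝒮 := by
  intro P hP hS K
  obtain ⟨V, i1, i2, ρ, hρ⟩ := hP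
  have hV : Finite V := by
    refine core ρ {H | ∃ K ∈ 𝒮, K.fixingSubgroup = H} ?_ ?_
    · rintro H ⟨K, hK, rfl⟩
      exact (hρ K).1 (hS K hK)
    · intro S h0 hfin hSst hmin
      have : Finite S := hfin
      obtain ⟨K, hK, v, hv, hvK⟩ := h S inferInstance inferInstance this (subRep ρ S hSst)
        (irred_subRep ρ S hSst h0 hmin)
      refine ⟨_, ⟨K, hK, rfl⟩, v, v.2, fun hv0 => hv (Subtype.ext hv0), fun g hg => ?_⟩
      exact congrArg Subtype.val (hvK g hg)
  exact (hρ K).2 (Set.toFinite _)

theorem seesAll_of {𝒮 : Set (IntermediateField k L)} (h : Sufficient p k L 𝒮) :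
    SeesAll p k L 𝒮 := by
  intro V i1 i2 i3 ρ hρ
  by_contra hno
  push Not at hno
  have : Nontrivial V := hρ.1
  have key := h (fun K => (Fix (copies ρ) K.fixingSubgroup).Finite)
    ⟨ℕ → V, inferInstance, inferInstance, copies ρ, fun K => Iff.rfl⟩ (fun K hK => ?_) ⊤
  · have hall : Fix (copies ρ) (⊤ : IntermediateField k L).fixingSubgroup = Set.univ := by
      rw [IntermediateField.fixingSubgroup_top]
      ext f
      refine ⟨fun _ => trivial, fun _ g hg => ?_⟩
      rw [Subgroup.mem_bot.1 hg, map_one, Module.End.one_apply]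
    rw [hall, Set.finite_univ_iff] at key
    exact not_finite (ℕ → V)
  · refine (Set.finite_singleton (0 : ℕ → V)).subset fun f hf => ?_
    rw [Set.mem_singleton_iff]
    funext n
    by_contra hn
    exact hno K hK (f n) hn fun g hg => congr_fun (hf g hg) n

variable (p k L) in
/-- **The exact criterion.** -/
theorem criterion (𝒮 : Set (IntermediateField k L)) :
    Sufficient p k L 𝒮 ↔ SeesAll p k L 𝒮 :=
  ⟨seesAll_of, sufficient_of⟩

variable [IsGalois k L]

theorem cutOut_of {V : Type} [AddCommGroup V] [Module (ZMod p) V] [Finite V]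
    {ρ : Representation (ZMod p) (L ≃ₐ[k] L) V} (hρ : Irred ρ) {v : V} (hv : v ≠ 0)
    (hmax : ∀ u, u ≠ 0 → (∀ g ∈ stab ρ v, ρ g u = u) → stab ρ u = stab ρ v) :
    CutOut p k L (IntermediateField.fixedField (stab ρ v)) := by
  refine ⟨V, inferInstance, inferInstance, inferInstance, ρ, hρ, ⟨v, hv, ?_⟩, ?_⟩
  · rw [IntermediateField.fixingSubgroup_fixedField]
    exact fun g hg => hg
  · rw [IntermediateField.fixingSubgroup_fixedField]
    exact fun u hu hfix => hmax u hu hfix

theorem degree_of {V : Type} [AddCommGroup V] [Module (ZMod p) V]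
    {ρ : Representation (ZMod p) (L ≃ₐ[k] L) V} {v : V} (Q : Sylow p (L ≃ₐ[k] L))
    (hQ : (Q : Subgroup (L ≃ₐ[k] L)) ≤ stab ρ v) :
    ¬ p ∣ finrank k (IntermediateField.fixedField (stab ρ v)) := by
  intro hdvd
  rw [IntermediateField.finrank_eq_fixingSubgroup_index,
    IntermediateField.fixingSubgroup_fixedField] at hdvd
  exact Q.not_dvd_index (hdvd.trans (Subgroup.index_dvd_of_le hQ))

theorem mem_fix {V : Type} [AddCommGroup V] [Module (ZMod p) V]
    (ρ : Representation (ZMod p) (L ≃ₐ[k] L) V) (v : V) :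
    v ∈ Fix ρ (IntermediateField.fixedField (stab ρ v)).fixingSubgroup := by
  rw [IntermediateField.fixingSubgroup_fixedField]
  exact fun g hg => hg

variable (p k L)

/-- First version: degree prime to `p`. -/
theorem mainA : Sufficient p k L {K | CutOut p k L K ∧ ¬ p ∣ finrank k K} := by
  refine sufficient_of fun V _ _ _ ρ hρ => ?_
  have : Nontrivial V := hρ.1
  let Q : Sylow p (L ≃ₐ[k] L) := default
  obtain ⟨v, hv, hQ, hmax⟩ := exists_max ρ (Q : Subgroup (L ≃ₐ[k] L))
    (exists_fixed ρ _ Q.isPGroup')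
  exact ⟨_, ⟨cutOut_of hρ hv hmax, degree_of Q hQ⟩, v, hv, mem_fix ρ v⟩

/-- The proper subfields. -/
theorem proper_iff : Sufficient p k L {K | K ≠ ⊤} ↔
    ∀ (V : Type) (_ : AddCommGroup V) (_ : Module (ZMod p) V) (_ : Finite V)
      (ρ : Representation (ZMod p) (L ≃ₐ[k] L) V), Irred ρ →
      ∃ g : L ≃ₐ[k] L, g ≠ 1 ∧ ∃ v : V, v ≠ 0 ∧ ρ g v = v := by
  rw [criterion]
  refine ⟨fun h V i1 i2 i3 ρ hρ => ?_, fun h V i1 i2 i3 ρ hρ => ?_⟩
  · obtain ⟨K, hK, v, hv, hvK⟩ := h V i1 i2 i3 ρ hρ
    have hne : K.fixingSubgroup ≠ ⊥ := by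
      intro hbot
      refine hK ?_
      rw [← IsGalois.fixedField_fixingSubgroup K, hbot, IntermediateField.fixedField_bot]
    obtain ⟨a, ha⟩ := Subgroup.ne_bot_iff_exists_ne_one.1 hne
    exact ⟨a.1, fun h => ha (Subtype.ext h), v, hv, hvK a.1 a.2⟩
  · obtain ⟨g, hg, v, hv, hgv⟩ := h V i1 i2 i3 ρ hρ
    refine ⟨IntermediateField.fixedField (stab ρ v), ?_, v, hv, mem_fix ρ v⟩
    intro htop
    have h1 : (IntermediateField.fixedField (stab ρ v)).fixingSubgroup = stab ρ v :=
      IntermediateField.fixingSubgroup_fixedField _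
    rw [htop, IntermediateField.fixingSubgroup_top] at h1
    have h2 : g ∈ stab ρ v := hgv
    rw [← h1, Subgroup.mem_bot] at h2
    exact hg h2

/-- Second version: fields with a real place and CM fields. -/
theorem mainB (hp : p ≠ 2) (C : Set (L ≃ₐ[k] L)) (hC : ∀ c ∈ C, c * c = 1) :
    Sufficient p k L {K | CutOut p k L K ∧
      (HasReal C K ∨ (IsCM C K ∧ ¬ p ∣ finrank k K))} := by
  refine sufficient_of fun V _ _ _ ρ hρ => ?_
  have : Nontrivial V := hρ.1
  by_cases hex : ∃ c ∈ C, ∃ v : V, v ≠ 0 ∧ ρ c v = v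
  · obtain ⟨c, hcC, w, hw, hcw⟩ := hex
    have hQ0 : w ∈ Fix ρ (Subgroup.zpowers c) := by
      intro g hg
      have : Subgroup.zpowers c ≤ stab ρ w := by
        rw [Subgroup.zpowers_le]
        exact hcw
      exact this hg
    obtain ⟨v, hv, hQ, hmax⟩ := exists_max ρ (Subgroup.zpowers c) ⟨w, hw, hQ0⟩
    refine ⟨_, ⟨cutOut_of hρ hv hmax, Or.inl ⟨c, hcC, ?_⟩⟩, v, hv, mem_fix ρ v⟩
    intro x hx
    have hcm : c ∈ (IntermediateField.fixedField (stab ρ v)).fixingSubgroup := by
      rw [IntermediateField.fixingSubgroup_fixedField]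
      exact hQ (Subgroup.mem_zpowers c)
    exact (IntermediateField.mem_fixingSubgroup_iff _ _).1 hcm x hx
  · push Not at hex
    have hneg : ∀ c ∈ C, ∀ v : V, ρ c v = -v := by
      intro c hcC v
      by_contra hne
      refine hex c hcC (v + ρ c v) (fun h0 => hne ?_) ?_
      · rw [← add_eq_zero_iff_neg_eq.1 h0]
      · rw [map_add, ← act_mul, hC c hcC, map_one, Module.End.one_apply, add_comm]
    let Q : Sylow p (L ≃ₐ[k] L) := default
    obtain ⟨v, hv, hQ, hmax⟩ := exists_max ρ (Q : Subgroup (L ≃ₐ[k] L))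
      (exists_fixed ρ _ Q.isPGroup')
    refine ⟨_, ⟨cutOut_of hρ hv hmax, Or.inr ⟨fun c hcC => ⟨?_, ?_, ?_⟩, degree_of Q hQ⟩⟩, v, hv,
      mem_fix ρ v⟩
    · by_contra hall
      push Not at hall
      have hcm : c ∈ (IntermediateField.fixedField (stab ρ v)).fixingSubgroup :=
        (IntermediateField.mem_fixingSubgroup_iff _ _).2 hall
      rw [IntermediateField.fixingSubgroup_fixedField, mem_stab, hneg c hcC v] at hcm
      have h2 : (2 : ZMod p) • v = 0 := by
        rw [two_smul]
        nth_rewrite 1 [← hcm]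
        exact neg_add_cancel v
      have h2ne : (2 : ZMod p) ≠ 0 := by
        intro h20
        have : (p : ℕ) ∣ 2 := (ZMod.natCast_eq_zero_iff 2 p).1 (by exact_mod_cast h20)
        have hp1 := (Fact.out : p.Prime).two_le
        have := Nat.le_of_dvd (by norm_num) this
        omega
      rcases smul_eq_zero.1 h2 with h20 | hv0
      · exact h2ne h20
      · exact hv hv0
    · intro c' hc' x hx
      have hcinv : c⁻¹ = c := inv_eq_of_mul_eq_one_right (hC c hcC)
      have hmem : c⁻¹ * c' ∈ (IntermediateField.fixedField (stab ρ v)).fixingSubgroup := by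
        rw [IntermediateField.fixingSubgroup_fixedField, mem_stab, act_mul, hneg c' hc' v, hcinv,
          map_neg, hneg c hcC, neg_neg]
      have h1 : c⁻¹ (c' x) = x := (IntermediateField.mem_fixingSubgroup_iff _ _).1 hmem x hx
      have h3 := congrArg c h1
      rwa [← AlgEquiv.mul_apply, mul_inv_cancel, AlgEquiv.one_apply] at h3
    · intro σ x hx
      have hcinv : c⁻¹ = c := inv_eq_of_mul_eq_one_right (hC c hcC)
      have hmem : σ⁻¹ * (c⁻¹ * (σ * c)) ∈
          (IntermediateField.fixedField (stab ρ v)).fixingSubgroup := by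
        rw [IntermediateField.fixingSubgroup_fixedField, mem_stab, act_mul, act_mul, act_mul,
          hneg c hcC v, hcinv, hneg c hcC, map_neg, map_neg, map_neg, neg_neg, ← act_mul,
          inv_mul_cancel, map_one, Module.End.one_apply]
      have := (IntermediateField.mem_fixingSubgroup_iff _ _).1 hmem x hx
      have h1 : σ⁻¹ (c⁻¹ (σ (c x))) = x := this
      have h2 : c⁻¹ (σ (c x)) = σ x := by
        have := congrArg σ h1
        rwa [← AlgEquiv.mul_apply, mul_inv_cancel, AlgEquiv.one_apply] at this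
      have h3 := congrArg c h2
      rwa [← AlgEquiv.mul_apply, mul_inv_cancel, AlgEquiv.one_apply] at h3

end Main

end Pool.Agent.TH743.MU
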